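import Pool.Agent.N658.TP.Stm5

/-! # Project TP, part D: the spectral condition -/

open scoped BigOperators ComplexConjugate Classical InnerProductSpace Matrix ComplexOrder
open scoped Matrix.Norms.L2Operator

set_option autoImplicit false

noncomputable section

namespace Pool.Agent.N73.TP

open Pool.Agent.Y738.PE Pool.Agent.N658.TP Pool.Agent.N658.TP.Sp

/-- the logarithm is at most twice the square root -/
theorem log_le_sqrt {m : ℝ} (hm : 0 < m) : Real.log m ≤ 2 * Real.sqrt m := by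
  have h1 := Real.log_le_sub_one_of_pos (Real.sqrt_pos.2 hm)
  rw [Real.log_sqrt hm.le] at h1
  have := Real.sqrt_nonneg m
  linarith

/-- F3 -/
theorem free4 (h1 : StmFree1) (h2 : StmFreeOf) (h3 : StmPartCnt) : StmFree4 := by
  intro d R' hd h hh R c hc hcnt
  obtain ⟨m₀, hm₀⟩ := hcnt
  obtain ⟨C₁, hC₁, H1⟩ := h1 d R' hd h hh R
  obtain ⟨K, hK⟩ : ∃ K : ℝ, K = m₀ + R' + 1 + (C₁ * (2 + 2 * c)) ^ 2 := ⟨_, rfl⟩
  have hm0 : (0 : ℝ) ≤ m₀ := Nat.cast_nonneg _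
  have hR0 : (0 : ℝ) ≤ R' := Nat.cast_nonneg _
  have hsq0 : 0 ≤ (C₁ * (2 + 2 * c)) ^ 2 := sq_nonneg _
  have hK1 : 1 ≤ K := by rw [hK]; linarith
  obtain ⟨K₁, hK₁⟩ : ∃ K₁ : ℝ, K₁ = 2 * (K + 1) := ⟨_, rfl⟩
  have hK₁1 : 4 ≤ K₁ := by rw [hK₁]; linarith
  have hl2 : 0 < Real.log 2 := Real.log_pos (by norm_num)
  have hlK : 0 ≤ Real.log K₁ := Real.log_nonneg (by linarith)
  obtain ⟨K₂, hK₂⟩ : ∃ K₂ : ℝ, K₂ = Real.log K₁ / Real.log 2 + 2 := ⟨_, rfl⟩
  have hK₂0 : 0 < K₂ := by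
    rw [hK₂]
    positivity
  obtain ⟨E, hE⟩ : ∃ E : ℝ, E = C₁ * (c * K₂ + (4 * c + 3) / Real.log 2) * K₂ := ⟨_, rfl⟩
  have hE0 : 0 < E := by
    rw [hE]
    positivity
  refine ⟨E + C₁ * K₁ ^ 4, by positivity, fun ε hε hε1 => ?_⟩
  have h1ε : 1 ≤ 1 / ε := by rw [le_div_iff₀ hε]; linarith
  have h1ε2 : 1 ≤ (1 / ε) ^ 2 := by nlinarith
  obtain ⟨n, hn⟩ : ∃ n : ℕ, n = ⌈K * (1 / ε) ^ 2⌉₊ := ⟨_, rfl⟩
  have hX0 : 0 ≤ K * (1 / ε) ^ 2 := by positivity
  have hn1 : K * (1 / ε) ^ 2 ≤ n := by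
    rw [hn]
    exact Nat.le_ceil _
  have hnK : K ≤ n := (le_mul_of_one_le_right (by linarith) h1ε2).trans hn1
  have hn0 : 0 < n := by
    have : (0 : ℝ) < n := by linarith
    exact_mod_cast this
  have i1 : NeZero (2 * n) := ⟨by omega⟩
  obtain ⟨m, hm⟩ : ∃ m : ℝ, m = ((2 * n : ℕ) : ℝ) := ⟨_, rfl⟩
  have hmn : m = 2 * n := by rw [hm]; push_cast; rfl
  have hm1 : K * (1 / ε) ^ 2 ≤ m := by
    rw [hmn]
    have : (0 : ℝ) ≤ n := Nat.cast_nonneg _
    linarith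
  have hmone : 1 ≤ m := by
    rw [hmn]
    have : (1 : ℝ) ≤ n := by exact_mod_cast hn0
    linarith
  have hmpos : 0 < m := by linarith
  have hm3 : m ≤ K₁ * (1 / ε) ^ 2 := by
    have h4 := Nat.ceil_lt_add_one hX0
    rw [← hn] at h4
    rw [hmn, hK₁]
    nlinarith
  have hm₀n : m₀ ≤ 2 * n := by
    have h4 : (m₀ : ℝ) ≤ n := by
      refine le_trans ?_ hnK
      rw [hK]
      linarith
    have h5 : m₀ ≤ n := by exact_mod_cast h4
    omega
  have hR'n : R' + 1 ≤ 2 * n := by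
    have h4 : ((R' + 1 : ℕ) : ℝ) ≤ n := by
      refine le_trans ?_ hnK
      rw [hK]
      push_cast
      linarith
    have h5 : R' + 1 ≤ n := by exact_mod_cast h4
    omega
  have hlogε : 0 < Real.log (2 / ε) := by
    apply Real.log_pos
    rw [lt_div_iff₀ hε]
    linarith
  have hlog2 : Real.log 2 ≤ Real.log (2 / ε) :=
    Real.log_le_log (by norm_num) (by rw [le_div_iff₀ hε]; linarith)
  have hlog : Real.log m ≤ K₂ * Real.log (2 / ε) := by
    have h4 := Real.log_le_log hmpos hm3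
    rw [Real.log_mul (by linarith) (by positivity), Real.log_pow] at h4
    have h5 : Real.log (1 / ε) ≤ Real.log (2 / ε) :=
      Real.log_le_log (by positivity) (div_le_div_of_nonneg_right (by norm_num) hε.le)
    have h7 : Real.log K₁ ≤ Real.log K₁ / Real.log 2 * Real.log (2 / ε) := by
      calc Real.log K₁ = Real.log K₁ / Real.log 2 * Real.log 2 := by field_simp
        _ ≤ Real.log K₁ / Real.log 2 * Real.log (2 / ε) :=
          mul_le_mul_of_nonneg_left hlog2 (by positivity)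
    rw [Nat.cast_ofNat (n := 2)] at h4
    rw [hK₂]
    linarith
  have hlog0 : 0 ≤ Real.log m := Real.log_nonneg hmone
  have hsm := log_le_sqrt hmpos
  have hs1 : 1 ≤ Real.sqrt m := Real.one_le_sqrt.2 hmone
  have hss : Real.sqrt m * Real.sqrt m = m := Real.mul_self_sqrt hmpos.le
  obtain ⟨β, hβ⟩ : ∃ β : ℝ, β = c * Real.log m + 1 := ⟨_, rfl⟩
  have hβ0 : 0 ≤ β := by rw [hβ]; positivity
  have hβ1 : C₁ * (1 + β) / ε ≤ m := by
    have h4 : 1 + β ≤ (2 + 2 * c) * Real.sqrt m := by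
      rw [hβ]
      nlinarith
    have h5 : C₁ * (2 + 2 * c) * (1 / ε) ≤ Real.sqrt m := by
      apply Real.le_sqrt_of_sq_le
      refine le_trans ?_ hm1
      rw [mul_pow]
      refine mul_le_mul_of_nonneg_right ?_ (by positivity)
      rw [hK]
      linarith
    calc C₁ * (1 + β) / ε = C₁ * (1 / ε) * (1 + β) := by ring
      _ ≤ C₁ * (1 / ε) * ((2 + 2 * c) * Real.sqrt m) :=
          mul_le_mul_of_nonneg_left h4 (by positivity)
      _ = C₁ * (2 + 2 * c) * (1 / ε) * Real.sqrt m := by ring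
      _ ≤ Real.sqrt m * Real.sqrt m := mul_le_mul_of_nonneg_right h5 (Real.sqrt_nonneg _)
      _ = m := hss
  obtain ⟨κ, hκ⟩ : ∃ κ : ℝ, κ = (2 * c * Real.log m + 1) / m ^ 2 := ⟨_, rfl⟩
  have hκ0 : 0 ≤ κ := by rw [hκ]; positivity
  have hκm : κ * m ^ 2 = 2 * c * Real.log m + 1 := by
    rw [hκ]
    field_simp
  have hκε : κ / ε ≤ 4 * c + 1 := by
    have h4 : 2 * c * Real.log m + 1 ≤ (4 * c + 1) * m := by
      have h5 : Real.sqrt m ≤ m := by nlinarith
      have h6 : 2 * c * Real.log m ≤ 2 * c * (2 * m) :=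
        mul_le_mul_of_nonneg_left (by linarith) (by linarith)
      linarith
    have h5 : 1 ≤ m * ε := by
      have h6 : 1 / ε ≤ m := by
        refine le_trans ?_ hm1
        calc 1 / ε ≤ (1 / ε) ^ 2 := by nlinarith
          _ ≤ K * (1 / ε) ^ 2 := le_mul_of_one_le_left (by positivity) hK1
      rwa [div_le_iff₀ hε] at h6
    rw [hκ, div_div, div_le_iff₀ (by positivity)]
    calc 2 * c * Real.log m + 1 ≤ (4 * c + 1) * m := h4
      _ = (4 * c + 1) * m * 1 := by ring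
      _ ≤ (4 * c + 1) * m * (m * ε) := mul_le_mul_of_nonneg_left h5 (by positivity)
      _ = (4 * c + 1) * (m ^ 2 * ε) := by ring
  have hpart := h3 d (R' + 1) (2 * n) (fun x y : BConf d (R' + 1) => h x y) c hc
    (hm₀ (2 * n) hm₀n) β (by rw [← hm, hβ])
  rw [← hm] at hpart
  have hF : FreeLe h (2 * n) β κ := by
    refine h2 d R' (by omega) h hh (2 * n) hR'n β κ (hpart.trans ?_)
    rw [← hm, hκm]
    have h4 : (2 : ℝ) * m ^ (2 * c) = Real.exp (2 * c * Real.log m + Real.log 2) := by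
      rw [Real.exp_add, Real.exp_log (by norm_num : (0 : ℝ) < 2), mul_comm,
        Real.rpow_def_of_pos hmpos]
      congr 2
      ring
    rw [h4, Real.exp_le_exp]
    have h5 := Real.log_le_sub_one_of_pos (show (0 : ℝ) < 2 by norm_num)
    linarith
  obtain ⟨L₀, hL₀⟩ := H1 ε hε hε1 β hβ0 n (by rw [← hm]; exact hβ1) κ hκ0 hF
  refine ⟨L₀, fun L _ hL Ψ hΨ hT => ?_⟩
  obtain ⟨D, A, hD, hA⟩ := hL₀ L hL Ψ hΨ hT
  refine ⟨D, A, hD.trans ?_, fun L' _ hL' => hA L' ?_⟩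
  · rw [Real.exp_le_exp, ← hm]
    have h4 : 1 + β + κ / ε ≤ (c * K₂ + (4 * c + 3) / Real.log 2) * Real.log (2 / ε) := by
      have h5 : 4 * c + 3 ≤ (4 * c + 3) / Real.log 2 * Real.log (2 / ε) := by
        calc 4 * c + 3 = (4 * c + 3) / Real.log 2 * Real.log 2 := by field_simp
          _ ≤ (4 * c + 3) / Real.log 2 * Real.log (2 / ε) :=
            mul_le_mul_of_nonneg_left hlog2 (by positivity)
      have h6 : c * Real.log m ≤ c * (K₂ * Real.log (2 / ε)) := mul_le_mul_of_nonneg_left hlog hc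
      rw [hβ]
      linarith
    calc C₁ * (1 + β + κ / ε) * Real.log m
        ≤ C₁ * ((c * K₂ + (4 * c + 3) / Real.log 2) * Real.log (2 / ε)) *
            (K₂ * Real.log (2 / ε)) :=
          mul_le_mul (mul_le_mul_of_nonneg_left h4 hC₁.le) hlog hlog0 (by positivity)
      _ = E * Real.log (2 / ε) ^ 2 := by rw [hE]; ring
      _ ≤ (E + C₁ * K₁ ^ 4) * Real.log (2 / ε) ^ 2 := by
          refine mul_le_mul_of_nonneg_right ?_ (by positivity)
          have : 0 ≤ C₁ * K₁ ^ 4 := by positivity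
          linarith
  · refine le_trans ?_ hL'
    rw [← hm]
    have h4 : m ^ 4 ≤ (K₁ * (1 / ε) ^ 2) ^ 4 := pow_le_pow_left₀ hmpos.le hm3 4
    calc C₁ * m ^ 4 ≤ C₁ * (K₁ * (1 / ε) ^ 2) ^ 4 := mul_le_mul_of_nonneg_left h4 hC₁.le
      _ = C₁ * K₁ ^ 4 * (1 / ε) ^ 8 := by ring
      _ ≤ (E + C₁ * K₁ ^ 4) * (1 / ε) ^ 8 :=
          mul_le_mul_of_nonneg_right (by linarith) (by positivity)

end Pool.Agent.N73.TP
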